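import Pool.Agent.J4H16.DV.Osc
import Pool.Agent.J4H53.DV.Bx
import Pool.Agent.J4H53.DV.Dx
import Pool.Agent.J4H79.LI.Tv
import Pool.Agent.J4H79.LI.Idn
import Pool.Agent.J4H98.LI.Zu
import Pool.Agent.J4H98.LI.Cmp
import Pool.Agent.J4H74.LI.Uni
import Pool.Agent.J4H74.LI.Half
import Pool.Agent.J4H74.LI.Ax
import Pool.Agent.J4H36.LI.Cyc
import Pool.Agent.J4H51.LI.Qb

/-! # Generalized Lienard systems with bounded divergence: the mean number of closed orbits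

The systems are `x' = P(x, y) - s x`, `y' = - g(x)` with `P` a polynomial of degree at most `n` and
`|∂P/∂x| ≤ M`; they contain the oscillators `z'' + (q(z, z') + s) z' + z = 0`, in particular the
Lienard equations.

Proof.  Every closed orbit turns once about the origin and its two halves are graphs over the
`y`-axis; the closed orbits for all `s` are nested.  For a closed orbit with interior `Ω` one has
`s |Ω| = ∫_Ω ∂P/∂x`; so `|s₂ - s₁| |Ω₂| ≤ (m + |s₁|) (|Ω₂| - |Ω₁|)` for nested closed orbits, where `m`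
bounds `|∂P/∂x|` in `Ω₂`: `s` has bounded variation per scale, whatever the degree.  The closed
orbits are not thin, and near the origin Bernstein's inequality bounds `∂P/∂x - ∂P/∂x(0)`. -/

open Set MeasureTheory
open scoped ENNReal

namespace Pool.Agent.Results.MP_95e7ec_an.BoundedDivergence

/-- The value of a polynomial at a point of the plane. -/
noncomputable def val (F : MvPolynomial (Fin 2) ℝ) (p : ℝ × ℝ) : ℝ :=
  MvPolynomial.eval ![p.1, p.2] F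

/-- The vector field `x' = P(x, y) - s x`, `y' = - g(x)`. -/
noncomputable def field (P : MvPolynomial (Fin 2) ℝ) (g : ℝ → ℝ) (s : ℝ) (p : ℝ × ℝ) : ℝ × ℝ :=
  (val P p - s * p.1, - g p.1)

/-- The vector field `z' = v`, `v' = - z - v (q(z, v) + s)` of the oscillator
`z'' + (q(z, z') + s) z' + z = 0`. -/
noncomputable def oscillator (q : MvPolynomial (Fin 2) ℝ) (s : ℝ) (p : ℝ × ℝ) : ℝ × ℝ :=
  (p.2, - p.1 - p.2 * (val q p + s))

/-- The box `|x| ≤ a`, `|y| ≤ b`. -/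
def box (a b : ℝ) : Set (ℝ × ℝ) := {p | |p.1| ≤ a ∧ |p.2| ≤ b}

/-- The set of the closed orbits (the images of the nonconstant periodic solutions) of the vector
field `X` which are contained in `A`. -/
def closedOrbitsIn (X : ℝ × ℝ → ℝ × ℝ) (A : Set (ℝ × ℝ)) : Set (Set (ℝ × ℝ)) :=
  {C | (∃ γ : ℝ → ℝ × ℝ, ∃ T : ℝ, 0 < T ∧ (∀ t : ℝ, HasDerivAt γ (X (γ t)) t) ∧
    (∀ t : ℝ, γ (t + T) = γ t) ∧ (∃ a b : ℝ, γ a ≠ γ b) ∧ C = range γ) ∧ C ⊆ A}

/-- The members `X s` of the family with `|s| > M` have no closed orbit in `A`, and the number of the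
closed orbits in `A` of the member `X s` has a measurable majorant `G` with
`∫ G ≤ 16 M log (1 + B)`. -/
def MeanBound (X : ℝ → ℝ × ℝ → ℝ × ℝ) (A : Set (ℝ × ℝ)) (M B : ℝ) : Prop :=
  (∀ s ∉ Icc (-M) M, closedOrbitsIn (X s) A = ∅) ∧
    ∃ G : ℝ → ℝ≥0∞, Measurable G ∧ (∀ s, ((closedOrbitsIn (X s) A).encard : ℝ≥0∞) ≤ G s) ∧
      ∫⁻ s, G s ≤ ENNReal.ofReal (16 * M * Real.log (1 + B))

lemma mk {X : ℝ → ℝ × ℝ → ℝ × ℝ} {A : Set (ℝ × ℝ)} {M B : ℝ}
    (h : (∀ s C, J4H16.LI.ClosedOrbit (X s) C → C ⊆ A → |s| ≤ M) ∧ ∃ G : ℝ → ℝ≥0∞, Measurable G ∧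
      (∀ s, (({C | J4H16.LI.ClosedOrbit (X s) C ∧ C ⊆ A}.encard : ℕ∞) : ℝ≥0∞) ≤ G s) ∧
      ∫⁻ s, G s ≤ ENNReal.ofReal (16 * M * Real.log (1 + B))) : MeanBound X A M B := by
  refine ⟨fun s hs => ?_, h.2⟩
  by_contra hne
  obtain ⟨C, hC⟩ := Set.nonempty_iff_ne_empty.2 hne
  exact hs (abs_le.1 (h.1 s C hC.1 hC.2))

/-- **Bounded divergence: the mean number of closed orbits is logarithmic in the degree.**

(i) Let `P` be a polynomial of degree at most `n` with `y P(0, y) > 0` for `y ≠ 0` and `g` a `C¹`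
function with `x g(x) > 0` for `x ≠ 0`, such that in the box `|x| ≤ R`, `|y| ≤ H` one has
`|∂P/∂x| ≤ M`, `y² / κ ≤ y P(0, y) ≤ κ y²` and `x² / κ ≤ x g(x) ≤ κ x²`. Then `x' = P(x, y) - s x`,
`y' = - g(x)` has no closed orbit in the box if `|s| > M`, and the number of its closed orbits in the
box has a measurable majorant `G` with `∫ G ≤ 16 M log (1 + 32 κ⁴ (1 + 2 M)² (1 + R / H) n)`.

(ii) The same with `κ = 1` for the oscillators `z'' + (q(z, z') + s) z' + z = 0`, `q` a polynomial of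
degree at most `n - 1` with `|q + v ∂q/∂v| ≤ M` in the box `|z| ≤ H`, `|v| ≤ R`. -/
theorem result :
    (∀ (n : ℕ) (P : MvPolynomial (Fin 2) ℝ) (g : ℝ → ℝ), 1 ≤ n → P.totalDegree ≤ n →
      ContDiff ℝ 1 g → (∀ x : ℝ, x ≠ 0 → 0 < x * g x) →
      (∀ y : ℝ, y ≠ 0 → 0 < y * val P (0, y)) →
      ∀ M R H κ : ℝ, 0 < M → 0 < R → 0 < H → 1 ≤ κ →
        (∀ y : ℝ, |y| ≤ H → y ^ 2 ≤ κ * (y * val P (0, y)) ∧ y * val P (0, y) ≤ κ * y ^ 2) →
        (∀ x : ℝ, |x| ≤ R → x ^ 2 ≤ κ * (x * g x) ∧ x * g x ≤ κ * x ^ 2) →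
        (∀ p ∈ box R H, |val (MvPolynomial.pderiv 0 P) p| ≤ M) →
        MeanBound (field P g) (box R H) M (32 * κ ^ 4 * (1 + 2 * M) ^ 2 * (1 + R / H) * n)) ∧
    (∀ (n : ℕ) (q : MvPolynomial (Fin 2) ℝ), 1 ≤ n → q.totalDegree + 1 ≤ n →
      ∀ M R H : ℝ, 0 < M → 0 < R → 0 < H →
        (∀ p ∈ box H R, |val q p + p.2 * val (MvPolynomial.pderiv 1 q) p| ≤ M) →
        MeanBound (oscillator q) (box H R) M (32 * (1 + 2 * M) ^ 2 * (1 + R / H) * n)) := by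
  have hCMP := J4H98.LI.t_CMP J4H74.LI.t_AX J4H98.LI.t_ZU
  have hEQ := J4H98.LI.t_EQ J4H74.LI.t_AX J4H98.LI.t_ZU
  have hCYC := J4H36.LI.t_CYC J4H74.LI.t_UNI J4H74.LI.t_HALF hCMP hEQ
  refine ⟨fun n P g hn hP hg hg0 hP0 M R H κ hM hR hH hκ hφ hgk hd => ?_,
    fun n q hn hq M R H hM hR hH hd => ?_⟩
  · exact mk (J4H16.LI.main8 hCYC hCMP hEQ J4H79.LI.t_IDN J4H79.LI.t_TV
      (J4H53.DV.t_BX J4H51.LI.t_QB) J4H53.DV.t_DX hg hg0 hP0 hn (J4H16.DV.pderiv_deg 0 P hP)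
      hM hR hH hκ ⟨fun y hy => (hφ y hy).1, fun y hy => (hφ y hy).2⟩
      ⟨fun x hx => (hgk x hx).1, fun x hx => (hgk x hx).2⟩ (fun x y hx hy => hd (x, y) ⟨hx, hy⟩))
  · exact mk (J4H16.DV.osc_main hCYC hCMP hEQ J4H79.LI.t_IDN J4H79.LI.t_TV
      (J4H53.DV.t_BX J4H51.LI.t_QB) J4H53.DV.t_DX hn hq hM hR hH (fun p h1 h2 => hd p ⟨h1, h2⟩))

end Pool.Agent.Results.MP_95e7ec_an.BoundedDivergence
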