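import Pool.Agent.J4H16.DV.Deg
import Pool.Agent.J4H16.DV.Lq
import Pool.Agent.J4H46.DV.Gr
import Pool.Agent.J4H97.DV.Cne
import Pool.Agent.J4H97.DV.Bd
import Pool.Agent.J4H6.DV.Low
import Pool.Agent.J4H79.LI.Tv
import Pool.Agent.J4H51.LI.Qb

/-! # Damped planar fields: the mean number of closed orbits is logarithmic in the degree

For every planar polynomial field `X` of degree at most `n` whose flow turns about the origin in a
disc, the number of the closed orbits in the disc of the field `X - (s / 2) (x, y)` has, on average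
over the interval `[-M, M]`, `M` a bound for the divergence of `X`, at most the order `log n`, and
this order is optimal.

Proof.  For a closed orbit with interior `Ω` one has `s |Ω| = ∫_Ω div X`.  The closed orbits of the
members of the family are nested, so `|s₂ - s₁| |Ω₂| ≤ (m + |s₁|) (|Ω₂| - |Ω₁|)`, where `m` bounds the
divergence on the ring between them: `s` has bounded variation per scale, whatever the degree.  Near
the origin Bernstein's inequality bounds `div X - div X(0)`. -/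

open Set MeasureTheory
open scoped ENNReal

namespace Pool.Agent.Results.MP_95e7ec_an.DampedMean

/-- The value of a polynomial at a point of the plane. -/
noncomputable def val (F : MvPolynomial (Fin 2) ℝ) (p : ℝ × ℝ) : ℝ :=
  MvPolynomial.eval ![p.1, p.2] F

/-- `x f + y g`; this is `r r'` along the orbits of `x' = f`, `y' = g`. -/
noncomputable def radial (f g : MvPolynomial (Fin 2) ℝ) (p : ℝ × ℝ) : ℝ :=
  p.1 * val f p + p.2 * val g p

/-- `x g - y f`; this is `r ^ 2 θ'` along the orbits of `x' = f`, `y' = g`. -/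
noncomputable def angular (f g : MvPolynomial (Fin 2) ℝ) (p : ℝ × ℝ) : ℝ :=
  p.1 * val g p - p.2 * val f p

/-- The divergence `∂f/∂x + ∂g/∂y`. -/
noncomputable def divergence (f g : MvPolynomial (Fin 2) ℝ) : MvPolynomial (Fin 2) ℝ :=
  MvPolynomial.pderiv 0 f + MvPolynomial.pderiv 1 g

/-- The vector field `(f, g) - (s / 2) (x, y)`. -/
noncomputable def damped (f g : MvPolynomial (Fin 2) ℝ) (s : ℝ) (p : ℝ × ℝ) : ℝ × ℝ :=
  (val f p - s / 2 * p.1, val g p - s / 2 * p.2)

/-- The set of the closed orbits (the images of the nonconstant periodic solutions) of the vector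
field `X` which are contained in `A`. -/
def closedOrbitsIn (X : ℝ × ℝ → ℝ × ℝ) (A : Set (ℝ × ℝ)) : Set (Set (ℝ × ℝ)) :=
  {C | (∃ γ : ℝ → ℝ × ℝ, ∃ T : ℝ, 0 < T ∧ (∀ t : ℝ, HasDerivAt γ (X (γ t)) t) ∧
    (∀ t : ℝ, γ (t + T) = γ t) ∧ (∃ a b : ℝ, γ a ≠ γ b) ∧ C = range γ) ∧ C ⊆ A}

/-- The closed disc of radius `R` about the origin, without the origin. -/
def puncturedDisc (R : ℝ) : Set (ℝ × ℝ) :=
  {p | 0 < p.1 ^ 2 + p.2 ^ 2 ∧ p.1 ^ 2 + p.2 ^ 2 ≤ R ^ 2}

/-- **The mean number of closed orbits over the damping is logarithmic in the degree.**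

(i) Let `f, g` be polynomials of degree at most `n` such that for `0 < |p| ≤ R` the flow turns
counter-clockwise about the origin (`x g - y f > 0`), `|div (f, g)| ≤ M` for `|p| ≤ R`, and
`|x f + y g| + (M / 2) r² ≤ K (x g - y f)`. Then `(f, g) - (s / 2) (x, y)` has no closed orbit in the
punctured disc if `|s| > M`, and the number of its closed orbits there has a measurable majorant `G`
with `∫ G ≤ 16 M (log (1 + 2 n) + π K)`.

(ii) The order `log n` is optimal: for all `m`, `M`, `R` there are such `f, g` of degree at most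
`2 · 16 ^ m + 1`, with `K = M`, such that there are at least `m` closed orbits in the punctured disc
for every `s` with `M / 21 < s < 2 M / 21`. -/
theorem result :
    (∀ (n : ℕ) (f g : MvPolynomial (Fin 2) ℝ), 1 ≤ n → f.totalDegree ≤ n → g.totalDegree ≤ n →
      ∀ M R K : ℝ, 0 < M → 0 < R →
        (∀ p ∈ puncturedDisc R, 0 < angular f g p ∧
          |radial f g p| + M / 2 * (p.1 ^ 2 + p.2 ^ 2) ≤ K * angular f g p) →
        (∀ p : ℝ × ℝ, p.1 ^ 2 + p.2 ^ 2 ≤ R ^ 2 → |val (divergence f g) p| ≤ M) →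
        (∀ s ∉ Icc (-M) M, closedOrbitsIn (damped f g s) (puncturedDisc R) = ∅) ∧
        ∃ G : ℝ → ℝ≥0∞, Measurable G ∧
          (∀ s, ((closedOrbitsIn (damped f g s) (puncturedDisc R)).encard : ℝ≥0∞) ≤ G s) ∧
          ∫⁻ s, G s ≤ ENNReal.ofReal (16 * M * (Real.log (1 + 2 * n) + Real.pi * K))) ∧
    (∀ (m : ℕ) (M R : ℝ), 0 < M → 0 < R → ∃ f g : MvPolynomial (Fin 2) ℝ,
      f.totalDegree ≤ 2 * 16 ^ m + 1 ∧ g.totalDegree ≤ 2 * 16 ^ m + 1 ∧
      (∀ p ∈ puncturedDisc R, 0 < angular f g p ∧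
        |radial f g p| + M / 2 * (p.1 ^ 2 + p.2 ^ 2) ≤ M * angular f g p) ∧
      (∀ p : ℝ × ℝ, p.1 ^ 2 + p.2 ^ 2 ≤ R ^ 2 → |val (divergence f g) p| ≤ M) ∧
      ∀ s ∈ Ioo (M / 21) (2 * M / 21),
        (m : ℕ∞) ≤ (closedOrbitsIn (damped f g s) (puncturedDisc R)).encard) := by
  refine ⟨fun n f g hn hf hg M R K hM hR hA hdiv => ?_, J4H6.DV.t_LOW J4H16.DV.t_LQ⟩
  obtain ⟨h1, h2⟩ := J4H16.DV.main (f := f) (g := g) J4H79.LI.t_TV J4H46.DV.t_GRX J4H46.DV.t_GRY
    J4H97.DV.t_CON J4H97.DV.t_CO1 (J4H97.DV.t_BD J4H51.LI.t_QB) hn hM hR (J4H16.DV.dv_deg hf hg)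
    (fun p hp => (hA p hp).1) (fun p hp => (hA p hp).2) hdiv
  refine ⟨fun s hs => ?_, h2⟩
  by_contra hne
  obtain ⟨C, hC⟩ := Set.nonempty_iff_ne_empty.2 hne
  exact hs (abs_le.1 (h1 s C hC))

end Pool.Agent.Results.MP_95e7ec_an.DampedMean
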