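import Mathlib
import Pool.Agent.J4H90.LI.RotSharp

/-! # Rotated fields: the mean number of closed orbits is at most linear in the degree

For every planar polynomial vector field `X` of degree at most `n` and every region, star-like about
the origin, in which the flow of `X` turns about the origin, the number of closed orbits in the
region of the field `X` rotated by the angle `α` (a polynomial field of degree at most `n`) is on
average, over an interval of angles, at most linear in `n`, with the optimal constant if the angle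
between `X` and the circles about the origin is small. -/

open Set MeasureTheory
open scoped ENNReal

namespace Pool.Agent.Results.MP_95e7ec_an.RotatedLinearMean

/-- The value of a polynomial at a point of the plane. -/
noncomputable def val (F : MvPolynomial (Fin 2) ℝ) (p : ℝ × ℝ) : ℝ :=
  MvPolynomial.eval ![p.1, p.2] F

/-- `x g - y f`; this is `r ^ 2 θ'` along the orbits of `x' = f`, `y' = g`. -/
noncomputable def angular (f g : MvPolynomial (Fin 2) ℝ) (p : ℝ × ℝ) : ℝ :=
  p.1 * val g p - p.2 * val f p

/-- If `angular f g p > 0`, this is the angle, in `(-π / 2, π / 2)`, between the field `(f, g)` at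
`p = (x, y)` and the direction `(-y, x)` of the circle through `p`; it is positive if the field
points outwards. -/
noncomputable def deviation (f g : MvPolynomial (Fin 2) ℝ) (p : ℝ × ℝ) : ℝ :=
  Real.arctan ((p.1 * val f p + p.2 * val g p) / (p.1 * val g p - p.2 * val f p))

/-- The vector field `(f, g)` rotated by the angle `α`. -/
noncomputable def rotated (f g : MvPolynomial (Fin 2) ℝ) (α : ℝ) (p : ℝ × ℝ) : ℝ × ℝ :=
  (Real.cos α * val f p - Real.sin α * val g p, Real.sin α * val f p + Real.cos α * val g p)

/-- The set of the closed orbits (the images of the nonconstant periodic solutions) of the vector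
field `X` which are contained in `A`. -/
def closedOrbitsIn (X : ℝ × ℝ → ℝ × ℝ) (A : Set (ℝ × ℝ)) : Set (Set (ℝ × ℝ)) :=
  {C | (∃ γ : ℝ → ℝ × ℝ, ∃ T : ℝ, 0 < T ∧ (∀ t : ℝ, HasDerivAt γ (X (γ t)) t) ∧
    (∀ t : ℝ, γ (t + T) = γ t) ∧ (∃ a b : ℝ, γ a ≠ γ b) ∧ C = range γ) ∧ C ⊆ A}

/-- The closed disc of radius `R` about the origin, without the origin. -/
def puncturedDisc (R : ℝ) : Set (ℝ × ℝ) :=
  {p | 0 < p.1 ^ 2 + p.2 ^ 2 ∧ p.1 ^ 2 + p.2 ^ 2 ≤ R ^ 2}

/-- **Rotated fields: a bound, linear in the degree, for the mean number of closed orbits.**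

(i) Let `f, g` be polynomials of degree at most `n` and let `A` be a set which meets every open ray
from the origin in an interval, such that on `A` the flow turns counter-clockwise about the origin
(`x g - y f > 0`) and the deviation of the field from the direction of the circles lies in
`[m, M]`. Then the field rotated by `α` has no closed orbit in `A` if `M - π < α < m + π` and `α` is
not in `[m, M]`; and for all `a, b, K` with `M - a ≤ K`, `b - m ≤ K`, `K < π / 2` the number of the
closed orbits in `A` of the field rotated by `α`, `a ≤ α ≤ b`, has a measurable majorant `G` with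
`∫ G ≤ (cos K) ^ (-2) (n / 2) (M - m)`, and with `n - 1` in place of `n` if the origin is an
equilibrium. (For `M - m < π / 2` one may take `a = m`, `b = M`, `K = M - m`.)

(ii) The constant is optimal as `M - m → 0`: for all `k ≥ 1`, `R > 0` and `0 < δ < π / 2` there are
`f, g` of degree at most `n = 2 k + 1` vanishing at the origin, with `x g - y f > 0` and deviation in
`[-δ, δ]` on the punctured disc of radius `R`, such that for every `α` with `- δ < α < δ` the field
rotated by `α` has at least `k = (n - 1) / 2` closed orbits in this punctured disc. -/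
theorem result :
    (∀ (n : ℕ) (f g : MvPolynomial (Fin 2) ℝ), f.totalDegree ≤ n → g.totalDegree ≤ n →
      ∀ (A : Set (ℝ × ℝ)) (m M : ℝ),
        (∀ t : ℝ, {r : ℝ | 0 < r ∧ (r * Real.cos t, r * Real.sin t) ∈ A}.OrdConnected) →
        (∀ p ∈ A, 0 < angular f g p ∧ m ≤ deviation f g p ∧ deviation f g p ≤ M) →
        (∀ α : ℝ, M - Real.pi < α → α < m + Real.pi → α ∉ Icc m M →
          closedOrbitsIn (rotated f g α) A = ∅) ∧
        ∀ a b K : ℝ, M - a ≤ K → b - m ≤ K → K < Real.pi / 2 →
          ∃ G : ℝ → ℝ≥0∞, Measurable G ∧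
            (∀ α ∈ Icc a b, ((closedOrbitsIn (rotated f g α) A).encard : ℝ≥0∞) ≤ G α) ∧
            2 * ∫⁻ α, G α ≤
              ENNReal.ofReal ((Real.cos K ^ 2)⁻¹) * (n * ENNReal.ofReal (M - m)) ∧
            (val f 0 = 0 → val g 0 = 0 → 2 * ∫⁻ α, G α ≤
              ENNReal.ofReal ((Real.cos K ^ 2)⁻¹) * ((n - 1 : ℕ) * ENNReal.ofReal (M - m)))) ∧
    (∀ k : ℕ, 1 ≤ k → ∀ R : ℝ, 0 < R → ∀ δ : ℝ, 0 < δ → δ < Real.pi / 2 →
      ∃ f g : MvPolynomial (Fin 2) ℝ,
        f.totalDegree ≤ 2 * k + 1 ∧ g.totalDegree ≤ 2 * k + 1 ∧ val f 0 = 0 ∧ val g 0 = 0 ∧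
        (∀ p ∈ puncturedDisc R, 0 < angular f g p ∧ -δ ≤ deviation f g p ∧
          deviation f g p ≤ δ) ∧
        ∀ α ∈ Ioo (-δ) δ,
          (k : ℕ∞) ≤ (closedOrbitsIn (rotated f g α) (puncturedDisc R)).encard) := by
  refine ⟨fun n f g hf hg A m M hA h => ⟨fun α h1 h2 h3 => ?_, fun a b K ha hb hK => ?_⟩,
    fun k hk R hR δ hδ hδ' => ?_⟩
  · exact J4H90.LI.rot_empty (fun p hp => (h p hp).1) (fun p hp => (h p hp).2) h1 h2 h3
  · exact J4H90.LI.rot_mean hf hg hA (fun p hp => (h p hp).1) (fun p hp => (h p hp).2) ha hb hK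
  · exact J4H90.LI.rot_sharp hk hR hδ hδ'

end Pool.Agent.Results.MP_95e7ec_an.RotatedLinearMean
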